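import Pool.Agent.H.MP_2806c7_co.A

namespace Pool.Agent.H.MP_476501_co

open Finset Pool.Agent.Lib.helper28.Zp Pool.Agent.H.MP_2806c7_co

variable {h : ℕ}

def dd (a b c : Fin h) : ℤ := (if a = c then 1 else 0) - if b = c then 1 else 0

theorem sum_dd (a b : Fin h) : ∑ c, dd a b c = 0 := by simp [dd, sum_sub_distrib]

theorem dep {ι : Type} [Fintype ι] [Nonempty ι] (a b : ι → Fin h)
    (h2 : ∀ i c, dd (a i) (b i) c ≠ 0 → ∃ j ≠ i, dd (a j) (b j) c ≠ 0) :
    ∃ g : ι → ℝ, (∀ c, ∑ i, g i * dd (a i) (b i) c = 0) ∧ ∃ i, g i ≠ 0 := by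
  classical
  by_cases hl : ∃ i, a i = b i
  · obtain ⟨i, hi⟩ := hl
    refine ⟨Pi.single i 1, fun c => ?_, i, by simp⟩
    rw [sum_eq_single i (fun j _ hj => by simp [hj]) (by simp)]
    simp [dd, hi]
  push Not at hl
  let V := univ.filter fun c => ∃ i, dd (a i) (b i) c ≠ 0
  obtain ⟨i0⟩ := ‹Nonempty ι›
  have m0 : a i0 ∈ V := mem_filter.2 ⟨mem_univ _, i0, by simp [dd, (hl i0).symm]⟩
  have hc : V.card * 2 ≤ (univ : Finset ι).card * 2 := by
    refine card_mul_le_card_mul (fun c i => dd (a i) (b i) c ≠ 0) (fun c hc => ?_) fun i _ => ?_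
    · obtain ⟨i, hi⟩ := (mem_filter.1 hc).2
      obtain ⟨j, hj, hj'⟩ := h2 i c hi
      exact one_lt_card.2 ⟨j, by simpa using hj', i, by simpa using hi, hj⟩
    · refine (card_le_card (t := {a i, b i}) fun c hc => ?_).trans card_le_two
      have := (mem_filter.1 hc).2
      by_contra hn
      simp only [mem_insert, mem_singleton, not_or] at hn
      simp [dd, Ne.symm hn.1, Ne.symm hn.2] at this
  have hdep : ¬ LinearIndependent ℝ fun (i : ι) (c : V.erase (a i0)) =>
      (dd (a i) (b i) c : ℝ) := fun hi => by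
    have := hi.fintype_card_le_finrank
    rw [Module.finrank_fintype_fun_eq_card, Fintype.card_coe, card_erase_of_mem m0] at this
    have := card_pos.2 ⟨_, m0⟩
    rw [card_univ] at hc
    omega
  obtain ⟨g, hg, hg'⟩ := Fintype.not_linearIndependent_iff.1 hdep
  have k1 : ∀ c, c ≠ a i0 → ∑ i, g i * dd (a i) (b i) c = 0 := by
    intro c hc
    by_cases hv : c ∈ V
    · simpa using congrFun hg ⟨c, mem_erase.2 ⟨hc, hv⟩⟩
    · simp only [V, mem_filter, mem_univ, true_and, not_exists, not_not] at hv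
      simp [hv]
  refine ⟨g, fun c => ?_, hg'⟩
  by_cases hc : c = a i0
  · have : ∑ c, ∑ i, g i * dd (a i) (b i) c = 0 := by
      rw [sum_comm]
      exact sum_eq_zero fun i _ => by rw [← mul_sum, ← Int.cast_sum, sum_dd]; simp
    rwa [sum_eq_single (a i0) (fun c _ hc => k1 c hc) (by simp), ← hc] at this
  · exact k1 c hc

theorem round {ι : Type} [Fintype ι] (a b : ι → Fin h) (z : Fin h → ℤ) (N : ℕ) :
    ∀ x : ι → ℝ, (∀ i, 0 ≤ x i ∧ x i ≤ 1) → (∀ c, ∑ i, x i * dd (a i) (b i) c = z c) →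
      (univ.filter fun i => x i ≠ 0 ∧ x i ≠ 1).card = N → ∃ y : ι → Bool,
        (∀ i, (y i = true → 0 < x i) ∧ (y i = false → x i < 1)) ∧
        ∀ c, ∑ i, (if y i then dd (a i) (b i) c else 0) = z c := by
  classical
  induction N using Nat.strong_induction_on with
  | _ N ih =>
  intro x hx hz hN
  by_cases hF : ∀ i, x i = 0 ∨ x i = 1
  · refine ⟨fun i => decide (x i = 1), fun i => ⟨fun e => ?_, fun e => ?_⟩, fun c => ?_⟩
    · rw [of_decide_eq_true e]; exact one_pos
    · exact (hx i).2.lt_of_ne (of_decide_eq_false e)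
    · have : ((∑ i, if decide (x i = 1) then dd (a i) (b i) c else 0 : ℤ) : ℝ) = z c := by
        rw [← hz c]
        push_cast
        exact sum_congr rfl fun i _ => by rcases hF i with e | e <;> simp [e]
      exact_mod_cast this
  have : Nonempty {i // x i ≠ 0 ∧ x i ≠ 1} := by
    push Not at hF
    exact nonempty_subtype.2 hF
  obtain ⟨g, hg, i1, hi1⟩ := dep (fun i : {i // x i ≠ 0 ∧ x i ≠ 1} => a i) (fun i => b i) (by
    intro i c hi
    by_contra hn
    push Not at hn
    have e := hz c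
    rw [← add_sum_erase _ _ (mem_univ i.1), sum_congr rfl (g := fun j =>
      ((if x j = 1 then dd (a j) (b j) c else 0 : ℤ) : ℝ)) fun j hj => by
        by_cases h1 : x j = 1
        · simp [h1]
        · by_cases h0 : x j = 0
          · simp [h0]
          · simp [h1, hn ⟨j, h0, h1⟩ fun e => (mem_erase.1 hj).1 (congrArg Subtype.val e)],
      ← Int.cast_sum, ← eq_sub_iff_add_eq, ← Int.cast_sub] at e
    generalize z c - _ = w at e
    have p0 := (hx i).1.lt_of_ne' i.2.1
    have p1 := (hx i).2.lt_of_ne i.2.2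
    have : dd (a i) (b i) c = 1 ∨ dd (a i) (b i) c = -1 := by
      revert hi; unfold dd; split_ifs <;> simp
    rcases this with r | r <;> rw [r] at e <;> push_cast at e
    · have h1 : (0 : ℝ) < w := by linarith
      have h2 : (w : ℝ) < 1 := by linarith
      have h1 : 0 < w := by exact_mod_cast h1
      have h2 : w < 1 := by exact_mod_cast h2
      omega
    · have h1 : (w : ℝ) < 0 := by linarith
      have h2 : (-1 : ℝ) < w := by linarith
      have h1 : w < 0 := by exact_mod_cast h1
      have h2 : -1 < w := by exact_mod_cast h2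
      omega)
  let D : ι → ℝ := fun i => if h : x i ≠ 0 ∧ x i ≠ 1 then g ⟨i, h⟩ else 0
  have hD : ∀ i, D i ≠ 0 → x i ≠ 0 ∧ x i ≠ 1 := fun i hi => by_contra fun e => hi (dif_neg e)
  have D1 : D i1 ≠ 0 := by simpa only [D, dif_pos i1.2] using hi1
  let r : ι → ℝ := fun i => if 0 < D i then (1 - x i) / D i else x i / -D i
  obtain ⟨u, hu, hmin⟩ := exists_min_image (univ.filter fun i => D i ≠ 0) r ⟨i1, by simpa using D1⟩
  have hu := (mem_filter.1 hu).2
  have t0 : 0 ≤ r u := by
    simp only [r]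
    split_ifs with e
    exacts [div_nonneg (by linarith [(hx u).2]) e.le, div_nonneg (hx u).1 (by linarith)]
  rw [← hN] at ih
  refine (ih _ (card_lt_card ⟨fun i hi => ?_, fun hs => ?_⟩) (fun i => x i + r u * D i)
    (fun i => ?_) (fun c => ?_) rfl).imp fun y hy => ⟨fun i => ?_, hy.2⟩
  · by_cases e : D i = 0
    · simpa [e] using hi
    · simpa using hD i e
  · have := (mem_filter.1 (hs (mem_filter.2 ⟨mem_univ u, hD u hu⟩))).2
    simp only [r] at this
    split_ifs at this with e
    · exact this.2 (by field_simp; ring)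
    · exact this.1 (by field_simp; ring)
  · have := hx i
    rcases lt_trichotomy (D i) 0 with e | e | e
    · have m := hmin i (by simpa using e.ne)
      rw [show r i = x i / -D i from if_neg e.not_gt, le_div_iff₀ (by linarith)] at m
      constructor <;> nlinarith
    · simpa [e] using this
    · have m := hmin i (by simpa using e.ne')
      rw [show r i = (1 - x i) / D i from if_pos e, le_div_iff₀ e] at m
      constructor <;> nlinarith
  · simp only [add_mul, sum_add_distrib, hz, mul_assoc, ← mul_sum]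
    rw [← Fintype.sum_subtype_add_sum_subtype (fun i => x i ≠ 0 ∧ x i ≠ 1),
      sum_congr rfl fun (i : {i // x i ≠ 0 ∧ x i ≠ 1}) _ => show _ = g i * dd (a i) (b i) c by
        simp only [D, dif_pos i.2], hg, sum_eq_zero fun (i : {i // ¬ (x i ≠ 0 ∧ x i ≠ 1)}) _ => by
        simp only [D, dif_neg i.2, zero_mul]]
    simp
  · by_cases e : D i = 0
    · simpa [e] using hy.1 i
    · exact ⟨fun _ => (hx i).1.lt_of_ne' (hD i e).1, fun _ => (hx i).2.lt_of_ne (hD i e).2⟩

theorem split {K N : ℕ} (a b : Fin N → Fin (K + 1)) (z : Fin (K + 1) → ℤ)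
    (hz : ∀ c, ∑ j, dd (a j) (b j) c = 2 * z c) : ∃ (y : Fin N → Bool) (ι : Fin N → Fin (K + 1)),
      Monotone ι ∧ (∀ j j', ι j = ι j' → y j = y j') ∧
        ∀ c, ∑ j, (if y j then dd (a j) (b j) c else 0) = z c := by
  let f : E K 2 → Fin K → ZMod 2 → ℝ := fun x c e =>
    ∑ j : Fin N, T (cl N j) x e * dd (a j) (b j) c.castSucc
  obtain ⟨x, hx, hf⟩ := bu (p := 2) Nat.prime_two (m := K) (n := K) (by simp) f
    (Continuous.continuousOn (continuous_pi fun c => continuous_pi fun e =>
      continuous_finsetSum _ fun j _ => (T_cont (cl_cont N j) e).mul continuous_const))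
    fun x _ c e => by simp only [f, T_sh]
  have h1 : ∀ j : Fin N, T (cl N j) x 0 + T (cl N j) x 1 = 1 := fun j => by
    have := sum_cl j.2 hx
    rwa [show (univ : Finset (ZMod 2)) = {0, 1} from rfl, sum_pair (by decide)] at this
  have h0 : ∀ (j : Fin N) e, 0 ≤ T (cl N j) x e := fun j e => T_nonneg (cl_mono N j) hx e
  have h2 : ∀ c : Fin K, ∑ j : Fin N, T (cl N j) x 0 * dd (a j) (b j) c.castSucc =
      z c.castSucc := fun c => by
    have e1 := hf c 0 1
    have e2 : ((∑ j, dd (a j) (b j) c.castSucc : ℤ) : ℝ) = 2 * z c.castSucc := by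
      exact_mod_cast hz c.castSucc
    have e3 : f x c 0 + f x c 1 = 2 * z c.castSucc := by
      rw [← e2, ← sum_add_distrib]
      push_cast
      exact sum_congr rfl fun j _ => by rw [← add_mul, h1, one_mul]
    simp only [f] at e1 e3
    linarith
  obtain ⟨y, hy, hy'⟩ := round a b z _ (fun j => T (cl N j) x 0)
    (fun j => ⟨h0 j 0, by linarith [h1 j, h0 j 1]⟩) (fun c => by
      refine Fin.lastCases ?_ h2 c
      have e1 : ∑ c, ∑ j : Fin N, T (cl N j) x 0 * dd (a j) (b j) c = 0 := by
        rw [sum_comm]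
        exact sum_eq_zero fun i _ => by rw [← mul_sum, ← Int.cast_sum, sum_dd]; simp
      have e2 : ∑ c, 2 * z c = 0 := by
        rw [← sum_congr rfl fun c _ => hz c, sum_comm]
        exact sum_eq_zero fun j _ => sum_dd _ _
      have e3 : ∑ c, (z c : ℝ) = 0 := by
        rw [← mul_sum] at e2
        exact_mod_cast (mul_eq_zero.1 e2).resolve_left two_ne_zero
      rw [Fin.sum_univ_castSucc] at e1 e3
      simp only [h2] at e1
      linarith) rfl
  have ex : ∀ j : Fin N, ∃ i : Fin (K + 1), x (i, if y j then 0 else 1) ≠ 0 ∧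
      N * lo x i < j + 1 ∧ (j : ℝ) < N * lo x (i + 1) := by
    intro j
    have : T (cl N j) x (if y j then 0 else 1) ≠ 0 := by
      cases e : y j
      · have := (hy j).2 e
        simp only [Bool.false_eq_true, if_false]
        linarith [h1 j]
      · exact ((hy j).1 e).ne'
    obtain ⟨i, -, hi⟩ := exists_ne_zero_of_sum_ne_zero this
    obtain ⟨c0, k1, k2⟩ := one_c hx i
    have k3 : x (i, if y j then 0 else 1) ≠ 0 := fun e => hi (by rw [e, add_zero, sub_self])
    rw [show (if y j then 0 else 1) = c0 from by_contra fun e => k3 (k1 _ e), ← k2] at hi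
    have k4 : (N : ℝ) * lo x i ≤ N * lo x (i + 1) :=
      mul_le_mul_of_nonneg_left (lo_mono hx (Nat.le_succ _)) (Nat.cast_nonneg N)
    refine ⟨i, k3, not_le.1 fun e => hi ?_, not_le.1 fun e => hi ?_⟩
    · rw [cl_hi e, cl_hi (e.trans k4), sub_self]
    · rw [cl_lo e, cl_lo (k4.trans e), sub_self]
  choose ι k1 k2 k3 using ex
  refine ⟨y, ι, fun j j' hj => hj.eq_or_lt.elim (fun e => by rw [e]) fun e => ?_,
    fun j j' e => ?_, hy'⟩
  · by_contra hn
    have e1 : lo x (ι j' + 1) ≤ lo x (ι j) := lo_mono hx (not_le.1 hn)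
    have e2 : ((j : ℕ) : ℝ) + 1 ≤ (j' : ℕ) := by exact_mod_cast e
    have := mul_le_mul_of_nonneg_left e1 (Nat.cast_nonneg (α := ℝ) N)
    linarith [k2 j, k3 j']
  · by_contra hn
    refine mul_ne_zero (k1 j) (e ▸ k1 j') (hx.2.2.1 _ _ _ ?_)
    cases e1 : y j <;> cases e2 : y j' <;> simp_all

end Pool.Agent.H.MP_476501_co
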