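import Pool.Agent.H.MP_476501_co.A

namespace Pool.Agent.H.MP_476501_co

open Finset Function

def st (s : ℕ → Bool) (n : ℕ) : ℕ := ∑ j ∈ range n, if s j = false ∧ s (j + 1) = true then 1 else 0

theorem st_succ (s : ℕ → Bool) (n : ℕ) :
    st s (n + 1) = st s n + if s n = false ∧ s (n + 1) = true then 1 else 0 := sum_range_succ _ _

theorem st_mono (s : ℕ → Bool) : Monotone (st s) :=
  monotone_nat_of_le_succ fun n => by rw [st_succ]; omega

theorem st_lt (s : ℕ → Bool) {i j : ℕ} (hij : i ≤ j) (hi : s i = false) :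
    s j = true → st s i < st s j := by
  induction j, hij using Nat.le_induction with
  | base => simp [hi]
  | succ j hij ih =>
    intro hj
    have := st_mono s hij
    rw [st_succ]
    cases e : s j
    · rw [if_pos ⟨rfl, hj⟩]; omega
    · have := ih e; omega

theorem st_le {s : ℕ → Bool} {n m : ℕ} (hs : Periodic s n) {σ : ℕ → ℕ} (hσ : Monotone σ)
    (e : σ m = n + σ 0) : st (fun i => s (σ i)) m ≤ st s n := by
  have h1 : ∀ m, st (fun i => s (σ i)) m + st s (σ 0) ≤ st s (σ m) := fun m => by
    induction m with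
    | zero => simp [st]
    | succ m ih =>
      have := st_mono s (hσ m.le_succ)
      rw [st_succ]
      split_ifs with c
      · have := st_lt s (hσ m.le_succ) c.1 c.2
        simp only [Nat.succ_eq_add_one] at *
        omega
      · simp only [Nat.succ_eq_add_one] at *
        omega
  have h2 : st s (n + σ 0) = st s n + st s (σ 0) := by
    unfold st
    rw [sum_range_add]
    simp only [add_assoc, fun x => (add_comm n x ▸ hs x : s (n + x) = s x)]
  have := h1 m
  rw [e] at this
  omega

theorem st_not (s : ℕ → Bool) (m : ℕ) :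
    st (fun i => !s i) m + (if s m then 1 else 0) = st s m + if s 0 then 1 else 0 := by
  induction m with
  | zero => simp [st]
  | succ m ih =>
    rw [st_succ, st_succ]
    revert ih
    cases s m <;> cases s (m + 1) <;> simp <;> omega

theorem st_split (s Y : ℕ → Bool) (I : ℕ → ℕ) (m : ℕ) (h : ∀ j < m, I j ≤ I (j + 1) ∧
    (s (j + 1) = true → Y j ≠ Y (j + 1) → I j < I (j + 1))) :
    st (fun i => s i && Y i) m + st (fun i => s i && !Y i) m ≤ st s m + I m := by
  induction m with
  | zero => simp [st]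
  | succ m ih =>
    have := ih fun j hj => h j (by omega)
    have k := h m (by omega)
    rw [st_succ, st_succ, st_succ]
    revert k
    cases s m <;> cases s (m + 1) <;> cases Y m <;> cases Y (m + 1) <;> simp <;> omega

theorem per_sum {f : ℕ → ℤ} {n : ℕ} (hf : Periodic f n) (w : ℕ) :
    ∑ j ∈ range n, f (j + w) = ∑ j ∈ range n, f j := by
  have h1 := sum_range_add f n w
  have h2 := sum_range_add f w n
  simp only [fun x => (add_comm n x ▸ hf x : f (n + x) = f x)] at h1
  rw [add_comm w n, h1] at h2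
  simp only [add_comm _ w]
  linarith

theorem sum_blk {M : Type} [AddCommMonoid M] (f : ℕ → M) (q l : ℕ) :
    ∑ j ∈ range (l * q), f j = ∑ i ∈ range l, ∑ r ∈ range q, f (i * q + r) := by
  induction l with
  | zero => simp
  | succ l ih => rw [Nat.succ_mul, sum_range_add, ih, sum_range_succ]

theorem sum_div (f : ℕ → ℤ) {q : ℕ} (hq : 0 < q) (l : ℕ) :
    ∑ j ∈ range (l * q), f (j / q) = q * ∑ i ∈ range l, f i := by
  rw [sum_blk, mul_sum]
  refine sum_congr rfl fun i _ => ?_
  rw [sum_congr rfl fun r hr => by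
    rw [add_comm, Nat.add_mul_div_right _ _ hq, Nat.div_eq_of_lt (mem_range.1 hr), zero_add]]
  simp

theorem per_div {α : Type} {s : ℕ → α} {n q : ℕ} (hs : Periodic s n) (hq : 0 < q) :
    Periodic (fun i => s (i / q)) (n * q) := fun i => by
  simp only [Nat.add_mul_div_right _ _ hq, hs _]

variable {K : ℕ}

def On (a b : ℕ → Fin (K + 1)) (N : ℕ) (z : Fin (K + 1) → ℤ) (s : ℕ → Bool) : Prop :=
  Periodic s N ∧ st s N < K ∧ ∀ c, ∑ i ∈ range N, (if s i then dd (a i) (b i) c else 0) = z c

variable {a b : ℕ → Fin (K + 1)} {N : ℕ} {z : Fin (K + 1) → ℤ} {s : ℕ → Bool}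

theorem On.shift (h : On a b N z s) (ha : Periodic a N) (hb : Periodic b N) (w : ℕ) :
    On (fun i => a (i + w)) (fun i => b (i + w)) N z fun i => s (i + w) :=
  ⟨h.1.add_const w, (st_le h.1 (fun _ _ e => by omega) (by omega)).trans_lt h.2.1, fun c =>
    (per_sum (f := fun i => if s i then dd (a i) (b i) c else 0)
      (fun i => by simp only [h.1 _, ha _, hb _]) w).trans (h.2.2 c)⟩

theorem On.compl (h : On a b N z s) :
    On a b N (fun c => ∑ i ∈ range N, dd (a i) (b i) c - z c) fun i => !s i := by
  refine ⟨fun i => by simp only [h.1 _], ?_, fun c => ?_⟩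
  · have := st_not s N
    rw [h.1.eq] at this
    have := h.2.1
    omega
  · beta_reduce
    rw [← h.2.2, ← sum_sub_distrib]
    exact sum_congr rfl fun i _ => by cases s i <;> simp

theorem On.dbl (h : On a b N z s) :
    On (fun i => a (i / 2)) (fun i => b (i / 2)) (N * 2) (fun c => 2 * z c) fun i => s (i / 2) :=
  ⟨per_div h.1 two_pos, (st_le h.1 (fun _ _ e => by omega) (by omega)).trans_lt h.2.1, fun c => by
    beta_reduce
    rw [← h.2.2]
    exact sum_div (fun i => if s i then dd (a i) (b i) c else 0) two_pos N⟩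

theorem On.half0 (hK : 2 ≤ K) (hN : 0 < N) (h : On a b N (fun c => 2 * z c) s)
    (h0 : s 0 = false ∨ st s N = 0) : ∃ s, On a b N z s := by
  have e : ∀ i c, dd (a i) (if s i then b i else a i) c = if s i then dd (a i) (b i) c else 0 :=
    fun i c => by cases s i <;> simp [dd]
  obtain ⟨y, ι, h1, h2, h3⟩ := split (N := N) (fun i => a i) (fun i => if s i then b i else a i) z
    fun c => by
      simp only [e]
      exact (Fin.sum_univ_eq_sum_range (fun i => if s i then dd (a i) (b i) c else 0) N).trans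
        (h.2.2 c)
  let Y : ℕ → Bool := fun i => y ⟨i % N, Nat.mod_lt _ hN⟩
  have hY : Periodic Y N := fun i => by simp only [Y, Nat.add_mod_right]
  have hY' : ∀ i : Fin N, Y i = y i := fun i => by simp only [Y, Nat.mod_eq_of_lt i.2]
  have k := st_split s Y (fun m => if h : m < N then ι ⟨m, h⟩ else K + if s 0 then 1 else 0) N
    fun j hj => by
      simp only [dif_pos hj]
      have := (ι ⟨j, hj⟩).2
      split_ifs with c c'
      · have : ι ⟨j, hj⟩ ≤ ι ⟨j + 1, c⟩ := h1 (Fin.mk_le_mk.2 j.le_succ)
        exact ⟨this, fun _ d => this.lt_of_ne fun d' =>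
          d ((hY' ⟨j, hj⟩).trans ((h2 _ _ d').trans (hY' ⟨j + 1, c⟩).symm))⟩
      · omega
      · rw [show j + 1 = N by omega, h.1.eq]
        exact ⟨by omega, fun d => absurd d c'⟩
  have k1 : ∀ c, ∑ i ∈ range N, (if s i && Y i then dd (a i) (b i) c else 0) = z c := fun c => by
    rw [← h3, ← Fin.sum_univ_eq_sum_range (fun i => if s i && Y i then dd (a i) (b i) c else 0)]
    exact sum_congr rfl fun i _ => by rw [e, hY']; cases s i <;> cases y i <;> simp
  have := h.2.1
  simp only [lt_irrefl, dif_neg, not_false_eq_true] at k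
  by_cases c : st (fun i => s i && Y i) N < K
  · exact ⟨_, fun i => by simp only [h.1 _, hY _], c, k1⟩
  · refine ⟨fun i => s i && !Y i, fun i => by simp only [h.1 _, hY _], ?_, fun c => ?_⟩
    · rcases h0 with h0 | h0
      · simp only [h0, Bool.false_eq_true, if_false] at k
        omega
      · split_ifs at k <;> omega
    · rw [show z c = 2 * z c - z c by ring, ← show _ = 2 * z c from h.2.2 c, ← k1,
        ← sum_sub_distrib]
      exact sum_congr rfl fun i _ => by beta_reduce; cases s i <;> cases Y i <;> simp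

theorem On.half (hK : 2 ≤ K) (hN : 0 < N) (h : On a b N (fun c => 2 * z c) s)
    (ha : Periodic a N) (hb : Periodic b N) : ∃ s, On a b N z s := by
  by_cases c : ∃ w, s w = false
  · obtain ⟨w, hw⟩ := c
    obtain ⟨s', h'⟩ := (h.shift ha hb w).half0 hK hN (Or.inl (by simpa using hw))
    have := h'.shift (ha.add_const w) (hb.add_const w) ((N - 1) * w)
    have e : ∀ i, i + (N - 1) * w + w = i + w * N := fun i => by
      obtain ⟨N, rfl⟩ := Nat.exists_eq_add_one_of_ne_zero hN.ne'
      simp only [Nat.add_sub_cancel]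
      ring
    have ha' : ∀ i, a (i + w * N) = a i := ha.nat_mul w
    have hb' : ∀ i, b (i + w * N) = b i := hb.nat_mul w
    simp only [e, ha', hb'] at this
    exact ⟨_, this⟩
  · exact h.half0 hK hN (Or.inr (sum_eq_zero fun j _ => if_neg fun e => c ⟨j, e.1⟩))

theorem dyadic (hK : 2 ≤ K) (hN : 0 < N) (ha : Periodic a N) (hb : Periodic b N) (n : ℕ) :
    ∀ j : ℕ, j ≤ 2 ^ n → ∃ s, On (fun i => a (i / 2 ^ n)) (fun i => b (i / 2 ^ n)) (N * 2 ^ n)
      (fun c => j * ∑ i ∈ range N, dd (a i) (b i) c) s := by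
  induction n with
  | zero =>
    intro j hj
    refine ⟨fun _ => decide (j = 1), fun _ => rfl, by simp [st]; omega, fun c => ?_⟩
    rcases (show j = 0 ∨ j = 1 by omega) with e | e <;> simp [e]
  | succ n ih =>
    have hp : 0 < 2 ^ (n + 1) := by positivity
    have k : ∀ j : ℕ, j ≤ 2 ^ n → ∃ s, On (fun i => a (i / 2 ^ (n + 1)))
        (fun i => b (i / 2 ^ (n + 1))) (N * 2 ^ (n + 1)) (fun c => j * ∑ i ∈ range N, dd (a i) (b i) c) s := fun j hj => by
      obtain ⟨s, hs⟩ := ih j hj
      have := hs.dbl
      simp only [Nat.div_div_eq_div_mul, ← pow_succ', mul_assoc, ← pow_succ] at this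
      exact this.half hK (by positivity) (per_div ha hp) (per_div hb hp)
    intro j hj
    by_cases c : j ≤ 2 ^ n
    · exact k j c
    · obtain ⟨s, hs⟩ := k (2 ^ (n + 1) - j) (by omega)
      refine ⟨_, by
        convert hs.compl using 2 with c
        rw [sum_div (fun i => dd (a i) (b i) c) hp, Nat.cast_sub hj]
        ring⟩

end Pool.Agent.H.MP_476501_co
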