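import Pool.Agent.H.MP_476501_co.B

namespace Pool.Agent.H.MP_476501_co

open Finset Function Filter Topology

variable {K N : ℕ} {a b : ℕ → Fin (K + 1)} {z : Fin (K + 1) → ℤ}

def G (K : ℕ) (hN : 0 < N) : Set (Fin N → ℝ) :=
  Set.Icc 0 1 ∩ ⋂ y : Fin N → Bool, {x | (∀ i, (y i = true → 0 < x i) ∧ (y i = false → x i < 1)) →
    st (fun i => y ⟨i % N, Nat.mod_lt _ hN⟩) N < K}

theorem G_compact (hN : 0 < N) : IsCompact (G K hN) := by
  refine isCompact_Icc.inter_right (isClosed_iInter fun y => isClosed_imp ?_ isClosed_const)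
  rw [Set.ofPred_forall]
  refine isOpen_iInter_of_finite fun i => ?_
  cases y i
  · simpa using isOpen_lt (continuous_apply i) continuous_const
  · simpa using isOpen_lt continuous_const (continuous_apply i)

theorem On.frac {q : ℕ} {s : ℕ → Bool} (hN : 0 < N) (hq : 0 < q)
    (h : On (fun i => a (i / q)) (fun i => b (i / q)) (N * q) z s) :
    ∃ x ∈ G K hN, ∀ c, ∑ i : Fin N, x i * dd (a i) (b i) c = z c / q := by
  have hq' : (0 : ℝ) < q := by exact_mod_cast hq
  let x : Fin N → ℝ := fun i => (∑ r ∈ range q, if s (i * q + r) then 1 else 0) / q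
  refine ⟨x, ⟨⟨fun i => div_nonneg (sum_nonneg fun r _ => by split_ifs <;> simp) hq'.le,
    fun i => (div_le_one hq').2 ((sum_le_card_nsmul _ _ 1 fun r _ => by
      split_ifs <;> simp).trans (by simp))⟩, Set.mem_iInter.2 fun y hy => ?_⟩, fun c => ?_⟩
  · have ex : ∀ i : Fin N, ∃ r < q, s (i * q + r) = y i := fun i => by
      by_contra hn
      push Not at hn
      cases e : y i
      · refine ((hy i).2 e).ne ((div_eq_one_iff_eq hq'.ne').2 ?_)
        rw [sum_congr rfl fun r hr => if_pos (by simpa [e] using hn r (mem_range.1 hr))]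
        simp
      · refine ((hy i).1 e).ne' (div_eq_zero_iff.2 (Or.inl ?_))
        exact sum_eq_zero fun r hr => if_neg (by simpa [e] using hn r (mem_range.1 hr))
    choose r hr hr' using ex
    have := st_le (m := N) h.1 (σ := fun i => i * q + r ⟨i % N, Nat.mod_lt _ hN⟩)
      (monotone_nat_of_le_succ fun i => by
        have := hr ⟨i % N, Nat.mod_lt _ hN⟩
        simp only [Nat.succ_mul]
        omega) (by simp)
    refine lt_of_le_of_lt (le_of_eq_of_le ?_ this) h.2.1
    congr 1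
    funext i
    rw [← hr', ← (h.1.nat_mul (i / N)) _]
    congr 1
    have := Nat.mod_add_div i N
    simp only [Nat.cast_id]
    grind
  · rw [← h.2.2, sum_blk, ← Fin.sum_univ_eq_sum_range (fun i => ∑ r ∈ range q,
      if s (i * q + r) then dd (a ((i * q + r) / q)) (b ((i * q + r) / q)) c else 0)]
    push_cast
    rw [Finset.sum_div]
    refine sum_congr rfl fun i _ => ?_
    rw [div_mul_eq_mul_div, sum_mul]
    congr 1
    refine sum_congr rfl fun r hr => ?_
    rw [show (i * q + r) / q = i by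
      rw [add_comm, Nat.add_mul_div_right _ _ hq, Nat.div_eq_of_lt (mem_range.1 hr), zero_add]]
    split_ifs <;> simp

theorem arcs (hK : 2 ≤ K) (hN : 0 < N) (ha : Periodic a N) (hb : Periodic b N) {θ : ℝ}
    (h0 : 0 ≤ θ) (h1 : θ ≤ 1) (hz : ∀ c, (z c : ℝ) = θ * ∑ i ∈ range N, dd (a i) (b i) c) :
    ∃ s, On a b N z s := by
  have hc := ((G_compact (K := K) hN).image 
    (f := fun x c => ∑ i : Fin N, x i * (dd (a i) (b i) c : ℝ)) (by fun_prop)).isClosed
  have ht : Tendsto (fun (n : ℕ) c => ((⌊θ * 2 ^ n⌋₊ : ℝ) / 2 ^ n) *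
      ((∑ i ∈ range N, dd (a i) (b i) c : ℤ) : ℝ)) atTop (𝓝 fun c => z c) :=
    tendsto_pi_nhds.2 fun c => hz c ▸ (((tendsto_nat_floor_mul_div_atTop h0).comp
      (tendsto_pow_atTop_atTop_of_one_lt one_lt_two)).mul_const _)
  obtain ⟨x, hx, e⟩ := hc.mem_of_tendsto ht (Eventually.of_forall fun n => by
    obtain ⟨s, hs⟩ := dyadic hK hN ha hb n ⌊θ * 2 ^ n⌋₊ (Nat.floor_le_of_le (by
      push_cast
      exact mul_le_of_le_one_left (by positivity) h1))
    obtain ⟨x, hx, e⟩ := hs.frac hN (by positivity)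
    exact ⟨x, hx, funext fun c => by beta_reduce; rw [e]; push_cast; ring⟩)
  obtain ⟨y, hy, hy'⟩ := round (fun i : Fin N => a i) (fun i => b i) z _ x
    (fun i => ⟨hx.1.1 i, hx.1.2 i⟩) (congrFun e) rfl
  refine ⟨fun i => y ⟨i % N, Nat.mod_lt _ hN⟩, fun i => by simp only [Nat.add_mod_right],
    Set.mem_iInter.1 hx.2 y hy, fun c => ?_⟩
  rw [← hy', ← Fin.sum_univ_eq_sum_range
    (fun i => if y ⟨i % N, Nat.mod_lt _ hN⟩ then dd (a i) (b i) c else 0)]
  exact sum_congr rfl fun i _ => by simp only [Nat.mod_eq_of_lt i.2]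

end Pool.Agent.H.MP_476501_co
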